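import Pool.Agent.H69.GK.PHK2
import Pool.Agent.H91.GA.RRN
import Pool.Agent.H23.GHK.TRF

/-!
Board ghk (MP_52e316_nt), row PHF: the coefficient functions of spherical forms.
-/

set_option autoImplicit false

namespace Pool.Agent.H14.GHK

open MeasureTheory Filter
open Pool.Agent.H34.GM Pool.Agent.H34.GZ Pool.Agent.H34.GU Pool.Agent.H34.GA
open Pool.Agent.H90.GA (det_inv_ne meas_F meas_F1 fin_D det_ne_D)
open Pool.Agent.H46.GU (fz fz_eq fz_meas)
open Pool.Agent.H91.GA (tr tr_meas fz_tr)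
open Pool.Agent.H69.GK (int_RR Kap phi0 pf_PHK cont_ext tst_closed tst_sub)
open Pool.Agent.H23.GHK (ip tF Ivf ivf_tr ip_tr det_mul_ne)

variable {m N : ℕ}

theorem EigU_ivf [NeZero N] {T : ℕ → Finset (ZM m)} {F : Mat m → VN m N → ℂ} {lam : ℕ → ℂ}
    {mu : Fin m → ℂ} (h : EigU m N T F lam mu) : Ivf F := ⟨h.cont, h.auto, h.scal, h.bdd⟩

/-- a non negative bound -/
theorem ivf_bdd [NeZero N] {F : Mat m → VN m N → ℂ} (h : Ivf F) :
    ∃ B : ℝ, 0 ≤ B ∧ ∀ g x, g.det ≠ 0 → ‖F g x‖ ≤ B := by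
  obtain ⟨B, hB⟩ := h.bdd
  exact ⟨|B|, abs_nonneg _, fun g x hg => (hB g x hg).trans (le_abs_self _)⟩

theorem fz_bd {F : Mat m → VN m N → ℂ} {B : ℝ} (hB0 : 0 ≤ B)
    (hB : ∀ g x, g.det ≠ 0 → ‖F g x‖ ≤ B) (x : VN m N) (z : V m) : ‖fz F x z‖ ≤ B := by
  by_cases h : (mt z).det = 0
  · have : fz F x z = 0 := if_pos h
    rw [this, norm_zero]
    exact hB0
  · rw [fz_eq F x h]
    exact hB _ x h

/-- the coefficient function of `F` and `F'` -/
noncomputable def cf [NeZero N] (D : Set (V m)) (F F' : Mat m → VN m N → ℂ) (z : Mat m) : ℂ :=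
  ip D (tF z⁻¹ F) F'

theorem orth_inv {u : Mat m} (hu : u * u.transpose = 1) : u⁻¹ = u.transpose :=
  Matrix.inv_eq_right_inv hu

theorem orth_tr {u : Mat m} (hu : u * u.transpose = 1) : u.transpose * u = 1 :=
  mul_eq_one_comm.1 hu

theorem orth_det {u : Mat m} (hu : u * u.transpose = 1) : u.det ≠ 0 := by
  intro h0
  have := congrArg Matrix.det hu
  rw [Matrix.det_mul, h0, zero_mul, Matrix.det_one] at this
  exact zero_ne_one this

theorem cf_left [NeZero N] {D : Set (V m)} {F F' : Mat m → VN m N → ℂ} (hm1 : 1 ≤ m)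
    (hD : DomZ m D)
    (hO : ∀ k : Mat m, k * k.transpose = 1 → ∀ g x, g.det ≠ 0 → F (g * k) x = F g x)
    {u : Mat m} (hu : u * u.transpose = 1) {z : Mat m} (hz : z.det ≠ 0) :
    cf D F F' (u * z) = cf D F F' z := by
  unfold cf ip
  refine Finset.sum_congr rfl fun x _ => setIntegral_congr_fun hD.meas fun g hg => ?_
  have hd := det_ne_D hm1 hD hg
  show F (mt g * (u * z)⁻¹) x * (starRingEnd ℂ) (F' (mt g) x) =
    F (mt g * z⁻¹) x * (starRingEnd ℂ) (F' (mt g) x)
  have h1 : F (mt g * (u * z)⁻¹) x = F (mt g * z⁻¹) x := by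
    rw [Matrix.mul_inv_rev, ← Matrix.mul_assoc, orth_inv hu]
    exact hO _ (by rw [Matrix.transpose_transpose]; exact orth_tr hu) _ x
      (det_mul_ne hd (det_inv_ne hz))
  rw [h1]

theorem cf_right (hV : T_VLM) (hR : T_RTI) (hA : T_ALU) [NeZero N]
    {T : ℕ → Finset (ZM m)} {D : Set (V m)} (hS : SysZ m N T D) {F F' : Mat m → VN m N → ℂ}
    (hF : Ivf F) (hF' : Ivf F')
    (hO : ∀ k : Mat m, k * k.transpose = 1 → ∀ g x, g.det ≠ 0 → F' (g * k) x = F' g x)
    {u : Mat m} (hu : u * u.transpose = 1) {z : Mat m} (hz : z.det ≠ 0) :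
    cf D F F' (z * u) = cf D F F' z := by
  have hm1 := hS.one_le
  have hD := hS.dom
  have hui := det_inv_ne (orth_det hu)
  have hzi := det_inv_ne hz
  have h1 := ip_tr hV hR hA hS (ivf_tr hF hzi) hF' hui
  unfold cf
  rw [← h1]
  unfold ip
  refine Finset.sum_congr rfl fun x _ => setIntegral_congr_fun hD.meas fun g hg => ?_
  have hd := det_ne_D hm1 hD hg
  show F (mt g * (z * u)⁻¹) x * (starRingEnd ℂ) (F' (mt g) x) =
    F (mt g * u⁻¹ * z⁻¹) x * (starRingEnd ℂ) (F' (mt g * u⁻¹) x)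
  have h2 : F' (mt g * u⁻¹) x = F' (mt g) x := by
    rw [orth_inv hu]
    exact hO _ (by rw [Matrix.transpose_transpose]; exact orth_tr hu) _ x hd
  rw [h2, Matrix.mul_inv_rev, Matrix.mul_assoc]

theorem cfx_cont (hV : T_VLM) [NeZero N] (hm1 : 1 ≤ m) {D : Set (V m)}
    (hD : DomZ m D) {F F' : Mat m → VN m N → ℂ} (hF : Ivf F) (hF' : Ivf F') (x : VN m N) :
    ContinuousOn (fun z : Mat m => ∫ g in D, tF z⁻¹ F (mt g) x *
      (starRingEnd ℂ) (F' (mt g) x) ∂(hm m)) {z | z.det ≠ 0} := by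
  have : FirstCountableTopology (Mat m) :=
    inferInstanceAs (FirstCountableTopology (Fin m → Fin m → ℝ))
  have hfin := fin_D hV hm1 hD
  obtain ⟨B, hB0, hB⟩ := ivf_bdd hF
  obtain ⟨B', hB0', hB'⟩ := ivf_bdd hF'
  refine continuousOn_of_dominated (bound := fun _ => B * B') ?_ ?_ (integrable_const _) ?_
  · intro z hz
    exact (meas_F hm1 hD (hF.cont x) (det_inv_ne hz)).mul
      (Complex.continuous_conj.comp_aestronglyMeasurable (meas_F1 hm1 hD (hF'.cont x)))
  · intro z hz
    refine (ae_restrict_iff' hD.meas).2 (Eventually.of_forall fun g hg => ?_)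
    have hd := det_ne_D hm1 hD hg
    rw [norm_mul, RCLike.norm_conj]
    exact mul_le_mul (hB _ x (det_mul_ne hd (det_inv_ne hz))) (hB' _ x hd) (norm_nonneg _) hB0
  · refine (ae_restrict_iff' hD.meas).2 (Eventually.of_forall fun g hg => ?_)
    have hd := det_ne_D hm1 hD hg
    refine ContinuousOn.mul ?_ continuousOn_const
    have h3 : ContinuousOn (fun z : Mat m => z⁻¹) {z | z.det ≠ 0} := by
      intro z hz
      exact (continuousAt_matrix_inv z (by
        rw [Ring.inverse_eq_inv']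
        exact continuousAt_inv₀ hz)).continuousWithinAt
    exact ContinuousOn.comp (g := fun g : Mat m => F g x) (t := {g | g.det ≠ 0}) (hF.cont x)
      ((continuous_const.matrix_mul continuous_id).comp_continuousOn h3)
      fun z hz => det_mul_ne hd (det_inv_ne hz)

theorem cf_cont (hV : T_VLM) [NeZero N] (hm1 : 1 ≤ m) {D : Set (V m)}
    (hD : DomZ m D) {F F' : Mat m → VN m N → ℂ} (hF : Ivf F) (hF' : Ivf F') :
    ContinuousOn (cf D F F') {z | z.det ≠ 0} := by
  unfold cf ip
  exact continuousOn_finsetSum _ fun x _ => cfx_cont hV hm1 hD hF hF' x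

/-- the integrals of the coefficient function against the test functions -/
theorem cf_tst (hM : T_MSR) (hH : T_HAR) (hV : T_VLM) [NeZero N] (hm1 : 1 ≤ m) {D : Set (V m)}
    (hD : DomZ m D) {F F' : Mat m → VN m N → ℂ} (hF : Ivf F) (hF' : Ivf F')
    {mu : Fin m → ℂ} {k : Mat m → ℂ} (hk : Tst m k)
    (harch : ∀ g x, g.det ≠ 0 → ∫ z, k (mt z) * F (g * (mt z)⁻¹) x ∂(hm m) =
      F g x * ∫ z, k (mt z) * pw mu (mt z) ∂(hm m)) :
    ∫ z, k (mt z) * cf D F F' (mt z) ∂(hm m) =
      ip D F F' * ∫ z, k (mt z) * pw mu (mt z) ∂(hm m) := by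
  have hfin := fin_D hV hm1 hD
  obtain ⟨B, hB0, hB⟩ := ivf_bdd hF
  obtain ⟨B', hB0', hB'⟩ := ivf_bdd hF'
  obtain ⟨-, -, -, -, hσ, -, -, hcm⟩ := hM.1 m
  obtain ⟨c, hc, hs⟩ := hk.supp
  have hki : Integrable (fun z : V m => k (mt z)) (hm m) :=
    int_RR hH hm1 hc (show Continuous fun z : V m => k (mt z) from
      hk.cont.comp (continuous_id (X := V m))) fun z hz => hs _ hz
  have hkm : Measurable (fun z : V m => k (mt z)) := hcm k hk.cont
  have hae : ∀ᵐ z : V m ∂(hm m), (mt z).det ≠ 0 := by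
    rw [ae_iff]
    simpa using (hH m hm1).2.2.1
  -- one coordinate
  have hx : ∀ x : VN m N, ∫ z, k (mt z) * (∫ g in D, tF (mt z)⁻¹ F (mt g) x *
      (starRingEnd ℂ) (F' (mt g) x) ∂(hm m)) ∂(hm m) =
      (∫ g in D, F (mt g) x * (starRingEnd ℂ) (F' (mt g) x) ∂(hm m)) *
        ∫ z, k (mt z) * pw mu (mt z) ∂(hm m) := by
    intro x
    have hI : Integrable (fun p : V m × V m => k (mt p.1) * (fz F x (tr p.2 p.1) *
        (starRingEnd ℂ) (fz F' x p.2))) ((hm m).prod ((hm m).restrict D)) := by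
      have h1 : Integrable (fun p : V m × V m => k (mt p.1) * ((B * B' : ℝ) : ℂ))
          ((hm m).prod ((hm m).restrict D)) :=
        Integrable.mul_prod (f := fun z : V m => k (mt z)) (g := fun _ => ((B * B' : ℝ) : ℂ))
          hki (integrable_const _)
      refine Integrable.mono h1 ?_ (Eventually.of_forall fun p => ?_)
      · refine Measurable.aestronglyMeasurable ?_
        refine (hkm.comp measurable_fst).mul (Measurable.mul ?_ ?_)
        · exact (fz_meas hM hF.cont x).comp ((tr_meas hM m).comp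
            (measurable_snd.prodMk measurable_fst))
        · exact Complex.continuous_conj.measurable.comp
            ((fz_meas hM hF'.cont x).comp measurable_snd)
      · rw [norm_mul, norm_mul, norm_mul, RCLike.norm_conj, Complex.norm_real, Real.norm_eq_abs,
          abs_of_nonneg (by positivity)]
        refine mul_le_mul_of_nonneg_left ?_ (norm_nonneg _)
        exact mul_le_mul (fz_bd hB0 hB x _) (fz_bd hB0' hB' x _) (norm_nonneg _) hB0
    have h2 := integral_integral_swap (f := fun z g => k (mt z) * (fz F x (tr g z) *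
        (starRingEnd ℂ) (fz F' x g))) hI
    calc ∫ z, k (mt z) * (∫ g in D, tF (mt z)⁻¹ F (mt g) x *
          (starRingEnd ℂ) (F' (mt g) x) ∂(hm m)) ∂(hm m)
        = ∫ z, ∫ g in D, k (mt z) * (fz F x (tr g z) *
            (starRingEnd ℂ) (fz F' x g)) ∂(hm m) ∂(hm m) := by
          refine integral_congr_ae ?_
          filter_upwards [hae] with z hz
          rw [← integral_const_mul]
          refine setIntegral_congr_fun hD.meas fun g hg => ?_
          have hd := det_ne_D hm1 hD hg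
          show k (mt z) * (tF (mt z)⁻¹ F (mt g) x * (starRingEnd ℂ) (F' (mt g) x)) =
            k (mt z) * (fz F x (tr g z) * (starRingEnd ℂ) (fz F' x g))
          rw [fz_tr F x hd hz, fz_eq F' x hd]
          rfl
      _ = ∫ g in D, ∫ z, k (mt z) * (fz F x (tr g z) *
            (starRingEnd ℂ) (fz F' x g)) ∂(hm m) ∂(hm m) := h2
      _ = ∫ g in D, (F (mt g) x * (starRingEnd ℂ) (F' (mt g) x)) *
            ∫ z, k (mt z) * pw mu (mt z) ∂(hm m) ∂(hm m) := by
          refine setIntegral_congr_fun hD.meas fun g hg => ?_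
          have hd := det_ne_D hm1 hD hg
          have h3 : ∫ z, k (mt z) * (fz F x (tr g z) * (starRingEnd ℂ) (fz F' x g)) ∂(hm m) =
              ∫ z, (starRingEnd ℂ) (F' (mt g) x) * (k (mt z) * F (mt g * (mt z)⁻¹) x)
                ∂(hm m) := by
            refine integral_congr_ae ?_
            filter_upwards [hae] with z hz
            rw [fz_tr F x hd hz, fz_eq F' x hd]
            ring
          show ∫ z, k (mt z) * (fz F x (tr g z) * (starRingEnd ℂ) (fz F' x g)) ∂(hm m) = _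
          rw [h3, integral_const_mul, harch (mt g) x hd]
          ring
      _ = _ := integral_mul_const _ _
  have h4 : ∀ x : VN m N, Integrable (fun z : V m => k (mt z) * (∫ g in D, tF (mt z)⁻¹ F (mt g) x *
      (starRingEnd ℂ) (F' (mt g) x) ∂(hm m))) (hm m) := by
    intro x
    refine int_RR hH hm1 hc ?_ fun z hz => hs _ (left_ne_zero_of_mul hz)
    have hU : IsOpen {z : Mat m | z.det ≠ 0} :=
      isOpen_ne_fun (continuous_id.matrix_det) continuous_const
    have h5 := cont_ext hU (tst_closed c) (tst_sub hc) (cfx_cont hV hm1 hD hF hF' x) hk.cont hs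
    exact h5.comp (continuous_id (X := V m))
  unfold cf ip
  simp only [Finset.mul_sum, Finset.sum_mul]
  rw [integral_finsetSum _ fun x _ => h4 x]
  exact Finset.sum_congr rfl fun x _ => hx x

/-- PHF with PHK: the coefficient functions of spherical forms are multiples of the spherical
function -/
theorem cf_phk (hM : T_MSR) (hH : T_HAR) (hHC : T_HAC) (hPC : T_PWC) (hV : T_VLM) (hR : T_RTI)
    (hA : T_ALU) [NeZero N] {T : ℕ → Finset (ZM m)} {D : Set (V m)} (hS : SysZ m N T D)
    {F F' : Mat m → VN m N → ℂ} {lam lam' : ℕ → ℂ} {mu mu' : Fin m → ℂ}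
    (hF : EigU m N T F lam mu) (hF' : EigU m N T F' lam' mu') {κ : Mat m → ℝ} (hκ : Kap m κ)
    {z : Mat m} (hz : z.det ≠ 0) : cf D F F' z = ip D F F' * phi0 κ mu z :=
  pf_PHK hH hHC hPC hS.one_le mu hκ (cf D F F') (ip D F F')
    (cf_cont hV hS.one_le hS.dom (EigU_ivf hF) (EigU_ivf hF'))
    (fun _ hu _ hz => cf_left hS.one_le hS.dom hF.orth hu hz)
    (fun _ hu _ hz => cf_right hV hR hA hS (EigU_ivf hF) (EigU_ivf hF') hF'.orth hu hz)
    (fun _ hk => cf_tst hM hH hV hS.one_le hS.dom (EigU_ivf hF) (EigU_ivf hF') hk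
      fun g x hg => hF.arch _ hk g x hg) z hz

end Pool.Agent.H14.GHK
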