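import Pool.Agent.H14.GHK.EPD

/-!
Board ghk (MP_52e316_nt), row PWR: the quotient of the values of the power function at `z w` and `w`
is a product of powers of determinants of compressions of `zᵀ z` to the spans of columns of `w`.
-/

namespace Pool.Agent.H14.GHK

open MeasureTheory Pool.Agent.H34.GM

variable {m : ℕ}

/-- the determinant of the compression of `S` to the span of the first `j` columns of `w` -/
noncomputable def Dp (w S : Mat m) (j : ℕ) : ℝ := (Ep w j * S * Ep w j + 1 - Ep w j).det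

/-- the exponents of the power function -/
noncomputable def ex (mu : Fin m → ℂ) (j : ℕ) : ℂ :=
  if h : j < m then (-(mu ⟨j, h⟩) + (2 * ((j : ℕ) + 1 : ℂ) - m - 1) / 2) / 2 else 0

theorem Dp_zero (w S : Mat m) : Dp w S 0 = 1 := by
  unfold Dp
  rw [Ep_zero, Matrix.zero_mul, Matrix.zero_mul, zero_add, sub_zero, Matrix.det_one]

theorem Dp_full {w : Mat m} (hw : w.det ≠ 0) (S : Mat m) : Dp w S m = S.det := by
  unfold Dp
  rw [Ep_full hw, Matrix.one_mul, Matrix.mul_one, add_sub_cancel_right]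

/-- the minors of `wᵀ S w` -/
theorem det_comp {w : Mat m} (hw : w.det ≠ 0) (S : Mat m) {j : ℕ} (h : j ≤ m) :
    ((cl w h).transpose * S * cl w h).det = mnr w j * Dp w S j := by
  have hG := gram_unit hw h
  have h1 : Ep w j * S * Ep w j + 1 - Ep w j = 1 + cl w h * (((cl w h).transpose * cl w h)⁻¹ *
      ((cl w h).transpose * S * cl w h - (cl w h).transpose * cl w h) *
        (((cl w h).transpose * cl w h)⁻¹ * (cl w h).transpose)) := by
    have h2 : Ep w j * S * Ep w j + 1 - Ep w j =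
        1 + (Ep w j * S * Ep w j - Ep w j * Ep w j) := by
      rw [Ep_idem hw h]
      abel
    rw [h2, Ep_le w h, Matrix.mul_sub, Matrix.sub_mul, Matrix.mul_sub]
    simp only [Matrix.mul_assoc]
  unfold Dp
  rw [h1, Matrix.det_one_add_mul_comm]
  have h3 : 1 + ((cl w h).transpose * cl w h)⁻¹ *
      ((cl w h).transpose * S * cl w h - (cl w h).transpose * cl w h) *
        (((cl w h).transpose * cl w h)⁻¹ * (cl w h).transpose) * cl w h =
      ((cl w h).transpose * cl w h)⁻¹ * ((cl w h).transpose * S * cl w h) := by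
    rw [Matrix.mul_assoc _ (((cl w h).transpose * cl w h)⁻¹ * (cl w h).transpose) (cl w h),
      Matrix.mul_assoc ((cl w h).transpose * cl w h)⁻¹ (cl w h).transpose (cl w h),
      Matrix.nonsing_inv_mul _ hG, Matrix.mul_one, Matrix.mul_sub, Matrix.nonsing_inv_mul _ hG]
    abel
  rw [h3, Matrix.det_mul, mnr_cl w h, ← mul_assoc, ← Matrix.det_mul,
    Matrix.mul_nonsing_inv _ hG, Matrix.det_one, one_mul]

theorem mnr_mul {w : Mat m} (hw : w.det ≠ 0) (z : Mat m) {j : ℕ} (h : j ≤ m) :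
    mnr (z * w) j = mnr w j * Dp w (z.transpose * z) j := by
  rw [← det_comp hw _ h, mnr_cl (z * w) h]
  have h1 : cl (z * w) h = z * cl w h := rfl
  rw [h1, Matrix.transpose_mul]
  simp only [Matrix.mul_assoc]

theorem Dp_pos {w z : Mat m} (hw : w.det ≠ 0) (hz : z.det ≠ 0) {j : ℕ} (h : j ≤ m) :
    0 < Dp w (z.transpose * z) j := by
  have h1 := mnr_mul hw z h
  have h2 : 0 < mnr (z * w) j := mnr_pos (by rw [Matrix.det_mul]; exact mul_ne_zero hz hw) h
  rw [h1] at h2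
  exact (pos_iff_pos_of_mul_pos h2).1 (mnr_pos hw h)

theorem ex_lt (mu : Fin m → ℂ) (j : Fin m) :
    ex mu (j : ℕ) = (-(mu j) + (2 * ((j : ℕ) + 1 : ℂ) - m - 1) / 2) / 2 := by
  unfold ex
  rw [dif_pos j.2]

theorem ex_top (mu : Fin m → ℂ) : ex mu m = 0 := by
  unfold ex
  rw [dif_neg (lt_irrefl m)]

theorem ex_sub (mu : Fin m → ℂ) {j : ℕ} (h : j + 1 < m) :
    ex mu j - ex mu (j + 1) = (mu ⟨j + 1, h⟩ - mu ⟨j, by omega⟩ - 1) / 2 := by
  unfold ex
  rw [dif_pos h, dif_pos (by omega : j < m)]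
  push_cast
  ring

/-- summation by parts -/
theorem abel_sum (a L : ℕ → ℂ) (n : ℕ) : ∑ j ∈ Finset.range n, a j * (L (j + 1) - L j) =
    ∑ j ∈ Finset.range n, (a j - a (j + 1)) * L (j + 1) + a n * L n - a 0 * L 0 := by
  induction n with
  | zero => simp
  | succ n ih =>
    rw [Finset.sum_range_succ, Finset.sum_range_succ, ih]
    ring

theorem pw_ex (mu : Fin m → ℂ) (z : Mat m) : pw mu z =
    ∏ j : Fin m, ((mnr z ((j : ℕ) + 1) / mnr z (j : ℕ) : ℝ) : ℂ) ^ ex mu (j : ℕ) := by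
  unfold pw
  exact Finset.prod_congr rfl fun j _ => by rw [ex_lt]

/-- PWR. -/
theorem pw_mul (mu : Fin m → ℂ) {w z : Mat m} (hw : w.det ≠ 0) (hz : z.det ≠ 0) :
    pw mu (z * w) = pw mu w * Complex.exp (∑ j ∈ Finset.range m, (ex mu j - ex mu (j + 1)) *
      ((Real.log (Dp w (z.transpose * z) (j + 1)) : ℝ) : ℂ)) := by
  have h1 : ∀ j : Fin m, ((mnr (z * w) ((j : ℕ) + 1) / mnr (z * w) (j : ℕ) : ℝ) : ℂ) ^
      ex mu (j : ℕ) = ((mnr w ((j : ℕ) + 1) / mnr w (j : ℕ) : ℝ) : ℂ) ^ ex mu (j : ℕ) *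
        Complex.exp (ex mu (j : ℕ) * (((Real.log (Dp w (z.transpose * z) ((j : ℕ) + 1)) : ℝ) : ℂ) -
          ((Real.log (Dp w (z.transpose * z) (j : ℕ)) : ℝ) : ℂ))) := by
    intro j
    have hj1 : (j : ℕ) + 1 ≤ m := j.2
    have hj : (j : ℕ) ≤ m := j.2.le
    have ha := mnr_pos hw hj1
    have hb := mnr_pos hw hj
    have hA := Dp_pos hw hz hj1
    have hB := Dp_pos hw hz hj
    have e1 : mnr (z * w) ((j : ℕ) + 1) / mnr (z * w) (j : ℕ) =
        (mnr w ((j : ℕ) + 1) / mnr w (j : ℕ)) *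
          (Dp w (z.transpose * z) ((j : ℕ) + 1) / Dp w (z.transpose * z) (j : ℕ)) := by
      rw [mnr_mul hw z hj1, mnr_mul hw z hj]
      field_simp
    have e2 : 0 < Dp w (z.transpose * z) ((j : ℕ) + 1) / Dp w (z.transpose * z) (j : ℕ) :=
      div_pos hA hB
    rw [e1, Complex.ofReal_mul, Complex.mul_cpow_ofReal_nonneg (div_pos ha hb).le e2.le]
    congr 1
    rw [Complex.cpow_def_of_ne_zero (Complex.ofReal_ne_zero.2 e2.ne'),
      ← Complex.ofReal_log e2.le, Real.log_div hA.ne' hB.ne', Complex.ofReal_sub, mul_comm]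
  rw [pw_ex, pw_ex, Finset.prod_congr rfl fun j _ => h1 j, Finset.prod_mul_distrib,
    ← Complex.exp_sum]
  congr 2
  rw [Fin.sum_univ_eq_sum_range (fun j => ex mu j *
    (((Real.log (Dp w (z.transpose * z) (j + 1)) : ℝ) : ℂ) -
      ((Real.log (Dp w (z.transpose * z) j) : ℝ) : ℂ))) m,
    abel_sum (ex mu) (fun j => ((Real.log (Dp w (z.transpose * z) j) : ℝ) : ℂ)) m, ex_top,
    Dp_zero]
  simp

/-- PWR, the quotient -/
theorem pw_div (mu : Fin m → ℂ) {w z : Mat m} (hw : w.det ≠ 0) (hz : z.det ≠ 0) :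
    pw mu (z * w) / pw mu w = Complex.exp (∑ j ∈ Finset.range m, (ex mu j - ex mu (j + 1)) *
      ((Real.log (Dp w (z.transpose * z) (j + 1)) : ℝ) : ℂ)) := by
  rw [pw_mul mu hw hz]
  have h0 : pw mu w ≠ 0 := by
    rw [pw_ex]
    refine Finset.prod_ne_zero_iff.2 fun j _ => ?_
    rw [Ne, Complex.cpow_eq_zero_iff, not_and_or]
    left
    exact Complex.ofReal_ne_zero.2 (div_pos (mnr_pos hw j.2) (mnr_pos hw j.2.le)).ne'
  rw [mul_div_cancel_left₀ _ h0]

end Pool.Agent.H14.GHK
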